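import Mathlib
import Pool.Agent.Results.MP_9682d1_al.FiveEngel

/-! MP_9682d1_al, Q1: every group, with any of its right `5`-Engel elements, is a direct factor of a
group whose right `5`-Engel elements do not all lie in the Baer radical. -/

set_option autoImplicit false

namespace Pool.Agent.Results.MP_9682d1_al.DirectFactor

open FiveEngel

lemma icom_prod {G H : Type} [Group G] [Group H] (a x : G) (b y : H) (k : ℕ) :
    icom (a, b) (x, y) k = (icom a x k, icom b y k) := by
  induction k with
  | zero => rfl
  | succ k ih =>
    change com (icom (a, b) (x, y) k) (x, y) = _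
    rw [ih]
    rfl

/-- A surjective homomorphism maps the Baer radical into the Baer radical. -/
lemma B_map {G H : Type} [Group G] [Group H] (f : G →* H) (hf : Function.Surjective f) (x : G)
    (hx : x ∈ B G) : f x ∈ B H := by
  have h : B G ≤ (B H).comap f := by
    refine (Subgroup.closure_le _).2 fun y hy => Subgroup.subset_closure ?_
    have h1 := Subgroup.IsSubnormal.map hf hy
    rw [MonoidHom.map_zpowers] at h1
    exact h1
  exact h hx

/-- There are a group `G` and an element `a` of `G` such that for every group `K` and every
surjective homomorphism `f` from `K` to `G`, no element of `K` over `a` is in the Baer radical of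
`K`, and such that for every group `H` and every right `5`-Engel element `h` of `H` the element
`(a, h)` of `G × H` is right `5`-Engel and not in the Baer radical. -/
theorem result : ∃ (G : Type) (_ : Group G) (a : G),
    (∀ (K : Type) [Group K] (f : K →* G), Function.Surjective f → ∀ c : K, f c = a → c ∉ B K) ∧
    ∀ (H : Type) [Group H], ∀ h ∈ R 5 H, (a, h) ∈ R 5 (G × H) ∧ (a, h) ∉ B (G × H) := by
  obtain ⟨⟨G, _, a, ha, hB⟩, _⟩ := FiveEngel.result
  refine ⟨G, inferInstance, a, fun K _ f hf c hc hcB => hB ?_, fun H _ h hh => ⟨?_, fun h1 => ?_⟩⟩
  · rw [← hc]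
    exact B_map f hf c hcB
  · rintro ⟨x, y⟩
    rw [icom_prod, ha x, hh y]
    rfl
  · exact hB (B_map (MonoidHom.fst G H) Prod.fst_surjective (a, h) h1)

end Pool.Agent.Results.MP_9682d1_al.DirectFactor
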